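import Pool.Agent.KS6_54.ML.Add3
import Pool.Graph.R_seed8.TH445.MQ.Fin

set_option autoImplicit false

/-!
# Montgomery's `ℓ^q` conjecture for mixtures of additive characters

Q1 asks for `∑_{1 ≤ t ≤ T} |D(t)|^q ≤ C N^ε (N^q + T N^(q/2))`, `D(t) = ∑_{N ≤ n ≤ 2N} b_n n^{it}`,
`|b_n| ≤ 1`, `N ≤ T ≤ N^A`. Here it is proved for all real `q ≥ 2` and all `N ≤ T ≤ N²` for the
coefficients

`b_n = ∫ g_ω(n) e(α(ω) n) n^{i u(ω)} dμ(ω)`,

`μ` any probability measure, `α` any measurable real function, `u` any measurable function with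
`|u| ≤ T`, `g_ω` any measurable family of functions bounded by `1` and of variation at most `V` on
`[N, 2N]`. That is, for the closed convex hull of all the sequences `g(n) e(αn) n^{iu}`.
-/

open Finset MeasureTheory

namespace Pool.Agent.Results.MP_2a1f0e_nt.FourierStieltjes

/-- **Main theorem.** -/
theorem result (q ε : ℝ) (hq : 2 ≤ q) (hε : 0 < ε) : ∃ K : ℝ, ∀ (N T : ℕ), 1 ≤ N → N ≤ T →
    T ≤ N ^ 2 → ∀ (Ω : Type) [MeasurableSpace Ω] (μ : Measure Ω) [IsProbabilityMeasure μ]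
    (α u : Ω → ℝ) (g : Ω → ℕ → ℂ) (V : ℝ), Measurable α → Measurable u →
    (∀ n, Measurable fun ω => g ω n) → (∀ ω, |u ω| ≤ T) → (∀ ω, ∀ n ∈ Icc N (2 * N), ‖g ω n‖ ≤ 1) →
    (∀ ω, ∑ n ∈ Ioc N (2 * N), ‖g ω n - g ω (n - 1)‖ ≤ V) →
    ∑ t ∈ Icc 1 T, ‖∑ n ∈ Icc N (2 * N),
        (∫ ω, g ω n * Complex.exp (2 * Real.pi * Complex.I * (α ω : ℂ) * (n : ℂ)) *
          Complex.exp (Complex.I * (u ω : ℂ) * ((Real.log (n : ℝ) : ℝ) : ℂ)) ∂μ) *
        Complex.exp (Complex.I * (t : ℂ) * ((Real.log (n : ℝ) : ℝ) : ℂ))‖ ^ q ≤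
      K * (1 + V) ^ 4 * (N : ℝ) ^ ε * ((N : ℝ) ^ q + (N : ℝ) ^ (q / 2) * (T : ℝ)) := by
  obtain ⟨K, hK, h⟩ := KS6_54.ML.add_twist q ε hq hε
  refine ⟨K, ?_⟩
  intro N T hN hNT hT2 Ω _ μ _ α u g V hα hu hg hu1 hg1 hV
  have hN1 : (1 : ℝ) ≤ N := by exact_mod_cast hN
  have hN0 : (0 : ℝ) < N := by linarith
  set R := (N : ℝ) ^ q + (N : ℝ) ^ (q / 2) * T with hR
  have hR0 : 0 ≤ R := by positivity
  -- the integrand of one coefficient
  set B : ℕ → Ω → ℂ := fun n ω => g ω n *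
    Complex.exp (2 * Real.pi * Complex.I * (α ω : ℂ) * (n : ℂ)) *
      Complex.exp (Complex.I * (u ω : ℂ) * ((Real.log (n : ℝ) : ℝ) : ℂ)) with hB
  have hBm : ∀ n, Measurable (B n) := by
    intro n
    rw [hB]
    fun_prop
  have hee : ∀ (x : ℝ) (n : ℕ), Complex.exp (2 * Real.pi * Complex.I * (x : ℂ) * (n : ℂ)) =
      KS6_54.ML.ee (x * n) := by
    intro x n
    unfold KS6_54.ML.ee
    congr 1
    push_cast
    ring
  have hexp : ∀ (x : ℝ) (n : ℕ), Complex.exp (Complex.I * (x : ℂ) * ((Real.log (n : ℝ) : ℝ) : ℂ)) =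
      W200.MR.pw x n := by
    intro x n
    unfold W200.MR.pw
    congr 1
    push_cast
    ring
  have hBn : ∀ n ∈ Icc N (2 * N), ∀ ω, ‖B n ω‖ ≤ 1 := by
    intro n hn ω
    rw [hB]
    simp only [norm_mul]
    rw [hee, hexp, KS6_54.ML.ee_norm, TH445.MQ.pw_norm, mul_one, mul_one]
    exact hg1 ω n hn
  have hBi : ∀ n ∈ Icc N (2 * N), Integrable (B n) μ := by
    intro n hn
    refine Integrable.of_bound (hBm n).aestronglyMeasurable 1 (ae_of_all _ (hBn n hn))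
  -- the polynomial of one `ω`
  set D : ℕ → Ω → ℂ := fun t ω => ∑ n ∈ Icc N (2 * N), B n ω * W200.MR.pw (t : ℝ) n with hD
  have hDm : ∀ t, Measurable (D t) := by
    intro t
    rw [hD]
    exact Finset.measurable_sum _ fun n _ => (hBm n).mul_const _
  have hDn : ∀ t ω, ‖D t ω‖ ≤ N + 1 := by
    intro t ω
    rw [hD]
    refine (norm_sum_le _ _).trans ?_
    calc ∑ n ∈ Icc N (2 * N), ‖B n ω * W200.MR.pw (t : ℝ) n‖ ≤ ∑ _n ∈ Icc N (2 * N), (1 : ℝ) := by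
          apply sum_le_sum
          intro n hn
          rw [norm_mul, TH445.MQ.pw_norm, mul_one]
          exact hBn n hn ω
      _ = N + 1 := by
          rw [sum_const, Nat.card_Icc, nsmul_eq_mul, mul_one]
          have : 2 * N + 1 - N = N + 1 := by omega
          rw [this]
          push_cast
          ring
  have hDi : ∀ t, Integrable (D t) μ := fun t =>
    Integrable.of_bound (hDm t).aestronglyMeasurable _ (ae_of_all _ (hDn t))
  have hqm : ∀ t, Measurable fun ω => ‖D t ω‖ ^ q := fun t => (hDm t).norm.pow_const q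
  have hqi : ∀ t, Integrable (fun ω => ‖D t ω‖ ^ q) μ := by
    intro t
    refine Integrable.of_bound (hqm t).aestronglyMeasurable (((N : ℝ) + 1) ^ q) (ae_of_all _ ?_)
    intro ω
    rw [Real.norm_of_nonneg (by positivity)]
    exact Real.rpow_le_rpow (norm_nonneg _) (hDn t ω) (by linarith)
  have key : ∀ t ∈ Icc 1 T, ‖∑ n ∈ Icc N (2 * N), (∫ ω, B n ω ∂μ) *
      Complex.exp (Complex.I * (t : ℂ) * ((Real.log (n : ℝ) : ℝ) : ℂ))‖ ^ q ≤
      ∫ ω, ‖D t ω‖ ^ q ∂μ := by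
    intro t _
    have e1 : ∑ n ∈ Icc N (2 * N), (∫ ω, B n ω ∂μ) *
        Complex.exp (Complex.I * (t : ℂ) * ((Real.log (n : ℝ) : ℝ) : ℂ)) = ∫ ω, D t ω ∂μ := by
      rw [hD, integral_finsetSum _ fun n hn => (hBi n hn).mul_const _]
      apply sum_congr rfl
      intro n _
      rw [integral_mul_const, ← TH445.MQ.pw_exp]
    rw [e1]
    have h1 : ‖∫ ω, D t ω ∂μ‖ ≤ ∫ ω, ‖D t ω‖ ∂μ := norm_integral_le_integral_norm _
    have h2 : (∫ ω, ‖D t ω‖ ∂μ) ^ q ≤ ∫ ω, ‖D t ω‖ ^ q ∂μ := by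
      have hc : ConvexOn ℝ (Set.Ici (0 : ℝ)) (fun x : ℝ => x ^ q) :=
        convexOn_rpow (by linarith)
      exact hc.map_integral_le (Real.continuous_rpow_const (by linarith)).continuousOn
        isClosed_Ici (ae_of_all _ fun ω => norm_nonneg _) (hDi t).norm (hqi t)
    exact (Real.rpow_le_rpow (norm_nonneg _) h1 (by linarith)).trans h2
  refine (sum_le_sum key).trans ?_
  rw [← integral_finsetSum _ fun t _ => hqi t]
  have hbd : ∀ ω, ∑ t ∈ Icc 1 T, ‖D t ω‖ ^ q ≤ K * (1 + V) ^ 4 * (N : ℝ) ^ ε * R := by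
    intro ω
    have h1 := h N T hN hNT hT2 (α ω) (u ω) (hu1 ω) (g ω) (hg1 ω)
    have e1 : ∀ t : ℕ, D t ω = ∑ n ∈ Icc N (2 * N), KS6_54.ML.ee (α ω * n) * g ω n *
        W200.MR.pw ((t : ℝ) + u ω) n := by
      intro t
      rw [hD]
      apply sum_congr rfl
      intro n _
      rw [hB]
      simp only
      rw [hee, hexp, TH445.MQ.pw_add]
      ring
    simp_rw [e1]
    refine h1.trans ?_
    have h2 : KS6_54.ML.tv N (g ω) ≤ V := hV ω
    have h3 := KS6_54.ML.tv_nonneg N (g ω)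
    gcongr
  calc ∫ ω, ∑ t ∈ Icc 1 T, ‖D t ω‖ ^ q ∂μ ≤ ∫ _ω, K * (1 + V) ^ 4 * (N : ℝ) ^ ε * R ∂μ := by
        apply integral_mono
        · exact integrable_finsetSum _ fun t _ => hqi t
        · exact integrable_const _
        · exact hbd
    _ = _ := by simp

end Pool.Agent.Results.MP_2a1f0e_nt.FourierStieltjes
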