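import Pool.Agent.KS6_54.ML.Per2
import Pool.Graph.R_seed8.TH445.MQ.Fin

set_option autoImplicit false

/-!
# Montgomery's `ℓ^q` conjecture for periodic coefficients

Q1 asks for `∑_{1 ≤ t ≤ T} |D(t)|^q ≤ C N^ε (N^q + T N^(q/2))`, `D(t) = ∑_{N ≤ n ≤ 2N} b_n n^{it}`,
`|b_n| ≤ 1`, `N ≤ T ≤ N^A`. Here it is proved, uniformly in the period `m`, for ALL coefficients
`b_n = f(n) g(n)` where `f` is an arbitrary function of period `m` with `|f| ≤ 1` and `g` is a function of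
bounded variation on `[N, 2N]`:

* for all real `q ≥ 2` if `m² T ≤ N²` (that is, `N ≤ T ≤ N² / m²`),
* for all real `q ≥ 4` if `m T ≤ N²`.

The proof is by the exact dual formula (Poisson summation for `n^{k+it} e^{-n/N}`, that is Lipschitz' formula),
which turns `D` into a sum over `j ≍ m t / N` whose coefficients are the values of the finite Fourier
transform of `f`, by a mean value theorem for exponential polynomials with complex frequencies, and by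
the divisor bound.
-/

open Finset

namespace Pool.Agent.Results.MP_2a1f0e_nt.PeriodicCoefficients

/-- **Main theorem.** -/
theorem result (q ε : ℝ) (hq : 2 ≤ q) (hε : 0 < ε) : ∃ K : ℝ, ∀ (N T m : ℕ) (f g : ℕ → ℂ) (V : ℝ),
    1 ≤ N → N ≤ T → 1 ≤ m → (∀ n, f (n + m) = f n) → (∀ n, ‖f n‖ ≤ 1) →
    (∀ n ∈ Icc N (2 * N), ‖g n‖ ≤ 1) → ∑ n ∈ Ioc N (2 * N), ‖g n - g (n - 1)‖ ≤ V →
    (m ^ 2 * T ≤ N ^ 2 ∨ (4 ≤ q ∧ m * T ≤ N ^ 2)) →
    ∑ t ∈ Icc 1 T, ‖∑ n ∈ Icc N (2 * N), f n * g n *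
        Complex.exp (Complex.I * (t : ℂ) * ((Real.log (n : ℝ) : ℝ) : ℂ))‖ ^ q ≤
      K * (1 + V) ^ 4 * (N : ℝ) ^ ε * ((N : ℝ) ^ q + (N : ℝ) ^ (q / 2) * (T : ℝ)) := by
  set e : ℝ := min (ε / 40) (1 / 4) with he
  have he0 : 0 < e := by rw [he]; positivity
  have he1 : e ≤ 1 / 4 := min_le_right _ _
  have he2 : e ≤ ε / 40 := min_le_left _ _
  obtain ⟨C, hC, N₀, hN₀, hB⟩ := KS6_54.ML.per_block e he0 he1
  obtain ⟨K1, hK1, hc⟩ := KS6_54.ML.conclude q (ε / 2) hq (by positivity) e he0 (by linarith)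
    (by linarith)
  refine ⟨K1 * (2 * C) + (N₀ : ℝ) ^ 2 * (2 * (N₀ : ℝ)) ^ q, ?_⟩
  intro N T m f g V hN hNT hm hf hf1 hg hV hmT
  have hN1 : (1 : ℝ) ≤ N := by exact_mod_cast hN
  have hN0 : (0 : ℝ) < N := by linarith
  have hV0 : 0 ≤ V := le_trans (sum_nonneg fun _ _ => norm_nonneg _) hV
  have hT1 : 1 ≤ T := by omega
  have hmT1 : m * T ≤ N ^ 2 := by
    rcases hmT with h | h
    · refine le_trans ?_ h
      apply Nat.mul_le_mul_right
      nlinarith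
    · exact h.2
  have hT2 : T ≤ N ^ 2 := le_trans (by nlinarith) hmT1
  have hmN : m ≤ N := by
    have h1 : m * N ≤ N * N := by
      calc m * N ≤ m * T := Nat.mul_le_mul_left m hNT
        _ ≤ N ^ 2 := hmT1
        _ = N * N := sq N
    exact Nat.le_of_mul_le_mul_right h1 (by omega)
  set b : ℕ → ℂ := fun n => f n * g n with hb
  have hb1 : ∀ n ∈ Icc N (2 * N), ‖b n‖ ≤ 1 := by
    intro n hn
    rw [hb]
    simp only [norm_mul]
    exact mul_le_one₀ (hf1 n) (norm_nonneg _) (hg n hn)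
  simp_rw [← TH445.MQ.pw_exp]
  set R := (N : ℝ) ^ q + (N : ℝ) ^ (q / 2) * T with hR
  have hR0 : 0 ≤ R := by positivity
  have hR1 : 1 ≤ R := by
    have h1 : 1 ≤ (N : ℝ) ^ q := Real.one_le_rpow hN1 (by linarith)
    have h2 : 0 ≤ (N : ℝ) ^ (q / 2) * T := by positivity
    rw [hR]; linarith
  have hNε : 1 ≤ (N : ℝ) ^ ε := Real.one_le_rpow hN1 hε.le
  have hV4 : 1 ≤ (1 + V) ^ 4 := one_le_pow₀ (by linarith)
  rcases lt_or_ge N N₀ with hlt | hge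
  · -- the trivial bound
    have hN₀r : (N : ℝ) + 1 ≤ N₀ := by exact_mod_cast hlt
    have h1 : ∀ t ∈ Icc 1 T, ‖∑ n ∈ Icc N (2 * N), f n * g n * W200.MR.pw (t : ℝ) n‖ ^ q ≤
        (2 * (N₀ : ℝ)) ^ q := by
      intro t _
      apply Real.rpow_le_rpow (norm_nonneg _) _ (by linarith)
      have := KS6_54.ML.D_le N b hb1 (t : ℝ)
      refine this.trans ?_
      linarith
    have hTr : (T : ℝ) ≤ (N₀ : ℝ) ^ 2 := by
      calc (T : ℝ) ≤ (N : ℝ) ^ 2 := by exact_mod_cast hT2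
        _ ≤ (N₀ : ℝ) ^ 2 := pow_le_pow_left₀ hN0.le (by linarith) 2
    calc ∑ t ∈ Icc 1 T, ‖∑ n ∈ Icc N (2 * N), f n * g n * W200.MR.pw (t : ℝ) n‖ ^ q
        ≤ ∑ _t ∈ Icc 1 T, (2 * (N₀ : ℝ)) ^ q := sum_le_sum h1
      _ = T * (2 * (N₀ : ℝ)) ^ q := by rw [sum_const, Nat.card_Icc, nsmul_eq_mul]; simp
      _ ≤ (N₀ : ℝ) ^ 2 * (2 * (N₀ : ℝ)) ^ q := mul_le_mul_of_nonneg_right hTr (by positivity)
      _ ≤ (K1 * (2 * C) + (N₀ : ℝ) ^ 2 * (2 * (N₀ : ℝ)) ^ q) * 1 * 1 * 1 := by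
          have : 0 ≤ K1 * (2 * C) := by positivity
          linarith
      _ ≤ _ := by gcongr
  · set P : ℝ := 2 * C * (1 + V) ^ 4 * (N : ℝ) ^ (17 * e) with hP
    have hNe : 1 ≤ (N : ℝ) ^ (17 * e) := Real.one_le_rpow hN1 (by positivity)
    have hP1 : 1 ≤ P := by
      rw [hP]
      have h1 : 1 ≤ 2 * C := by linarith
      exact one_le_mul_of_one_le_of_one_le (one_le_mul_of_one_le_of_one_le h1 hV4) hNe
    have hmain := hc N T b P hN hNT hT2 hP1 hb1 (by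
      intro X hX hXT
      have hX2 : X ≤ N ^ 2 := hXT.trans hT2
      have hX0 : (0 : ℝ) ≤ X := by positivity
      have h1 := hB N X m hge hX hX2 hm hmN f hf hf1 g hg
      have h2 : ∑ t ∈ Icc X (2 * X), ‖∑ n ∈ Icc N (2 * N), b n * W200.MR.pw (t : ℝ) n‖ ^ 4 ≤
          C * (1 + V) ^ 4 * (N : ℝ) ^ (17 * e) * (X * (N : ℝ) ^ 2 + (m : ℝ) ^ 2 * (X : ℝ) ^ 2) := by
        refine h1.trans ?_
        have h3 : (1 + KS6_54.ML.tv N g) ^ 4 ≤ (1 + V) ^ 4 := by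
          apply pow_le_pow_left₀ (by have := KS6_54.ML.tv_nonneg N g; linarith)
          have : KS6_54.ML.tv N g ≤ V := hV
          linarith
        gcongr
      rcases hmT with h | h
      · have hmX : (m : ℝ) ^ 2 * X ≤ (N : ℝ) ^ 2 := by
          have : m ^ 2 * X ≤ N ^ 2 := (Nat.mul_le_mul_left _ hXT).trans h
          exact_mod_cast this
        have hX2r : (X : ℝ) ≤ (N : ℝ) ^ 2 := by exact_mod_cast hX2
        have h3 : (X : ℝ) * (N : ℝ) ^ 2 + (m : ℝ) ^ 2 * (X : ℝ) ^ 2 ≤ 2 * (X * (N : ℝ) ^ 2) := by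
          nlinarith
        rcases le_total q 4 with h4 | h4
        · left
          refine ⟨h4, h2.trans ?_⟩
          calc C * (1 + V) ^ 4 * (N : ℝ) ^ (17 * e) * (X * (N : ℝ) ^ 2 + (m : ℝ) ^ 2 * (X : ℝ) ^ 2)
              ≤ C * (1 + V) ^ 4 * (N : ℝ) ^ (17 * e) * (2 * (X * (N : ℝ) ^ 2)) := by gcongr
            _ = P * (X * (N : ℝ) ^ 2) := by rw [hP]; ring
        · right
          refine ⟨h4, h2.trans ?_⟩
          have h5 : (X : ℝ) * (N : ℝ) ^ 2 ≤ (N : ℝ) ^ 4 := by nlinarith [sq_nonneg (N : ℝ)]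
          calc C * (1 + V) ^ 4 * (N : ℝ) ^ (17 * e) * (X * (N : ℝ) ^ 2 + (m : ℝ) ^ 2 * (X : ℝ) ^ 2)
              ≤ C * (1 + V) ^ 4 * (N : ℝ) ^ (17 * e) * (2 * (N : ℝ) ^ 4) := by
                gcongr
                linarith
            _ = P * (N : ℝ) ^ 4 := by rw [hP]; ring
      · right
        refine ⟨h.1, h2.trans ?_⟩
        have hmX : (m : ℝ) * X ≤ (N : ℝ) ^ 2 := by
          have : m * X ≤ N ^ 2 := (Nat.mul_le_mul_left _ hXT).trans h.2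
          exact_mod_cast this
        have hX2r : (X : ℝ) ≤ (N : ℝ) ^ 2 := by exact_mod_cast hX2
        have hm0 : (0 : ℝ) ≤ m := by positivity
        have h5 : (X : ℝ) * (N : ℝ) ^ 2 ≤ (N : ℝ) ^ 4 := by nlinarith [sq_nonneg (N : ℝ)]
        have h6 : (m : ℝ) ^ 2 * (X : ℝ) ^ 2 ≤ (N : ℝ) ^ 4 := by
          calc (m : ℝ) ^ 2 * (X : ℝ) ^ 2 = (m * X) ^ 2 := by ring
            _ ≤ ((N : ℝ) ^ 2) ^ 2 := pow_le_pow_left₀ (by positivity) hmX 2
            _ = _ := by ring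
        calc C * (1 + V) ^ 4 * (N : ℝ) ^ (17 * e) * (X * (N : ℝ) ^ 2 + (m : ℝ) ^ 2 * (X : ℝ) ^ 2)
            ≤ C * (1 + V) ^ 4 * (N : ℝ) ^ (17 * e) * (2 * (N : ℝ) ^ 4) := by
              gcongr
              linarith
          _ = P * (N : ℝ) ^ 4 := by rw [hP]; ring)
    refine hmain.trans ?_
    have h1 : (N : ℝ) ^ (17 * e) * (N : ℝ) ^ (ε / 2) ≤ (N : ℝ) ^ ε := by
      rw [← Real.rpow_add hN0]
      apply Real.rpow_le_rpow_of_exponent_le hN1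
      linarith
    calc K1 * P * (N : ℝ) ^ (ε / 2) * R = K1 * (2 * C) * (1 + V) ^ 4 *
          ((N : ℝ) ^ (17 * e) * (N : ℝ) ^ (ε / 2)) * R := by rw [hP]; ring
      _ ≤ K1 * (2 * C) * (1 + V) ^ 4 * (N : ℝ) ^ ε * R := by gcongr
      _ ≤ _ := by
          have h2 : 0 ≤ (N₀ : ℝ) ^ 2 * (2 * (N₀ : ℝ)) ^ q := by positivity
          have h3 : 0 ≤ (1 + V) ^ 4 * (N : ℝ) ^ ε * R := by positivity
          nlinarith

end Pool.Agent.Results.MP_2a1f0e_nt.PeriodicCoefficients
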