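import Pool.Agent.KS6_54.ML.Tw11
import Pool.Graph.R_seed8.TH445.MQ.Fin

set_option autoImplicit false

/-!
# Montgomery's `ℓ^q` conjecture for Type I coefficients

Q1 asks for `∑_{1 ≤ t ≤ T} |D(t)|^q ≤ C N^ε (N^q + T N^(q/2))`, `D(t) = ∑_{N ≤ n ≤ 2N} b_n n^{it}`,
`|b_n| ≤ 1`, `N ≤ T ≤ N^A`. Here it is proved for all real `q ≥ 2` for the coefficients

`b_n = g(n) ∑_{l ∣ n, l ≤ L} c_l f(n / l)`,

`c_l` arbitrary with `|c_l| ≤ 1`, `f` arbitrary of period `m` with `|f| ≤ 1`, `g` of bounded variation,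
whenever for some natural number `k ≥ 1`

`L^(k+1) m ≤ N` and `T^(k+1) m^(2k) ≤ N^(2k)`.

So for bounded `m`: level `L = N^(1/3)` and `T ≤ N^(4/3)`, level `L = N^(1/4)` and `T ≤ N^(3/2)`,
level `L = N^(1/(k+1))` and `T ≤ N^(2 - 2/(k+1))`.

The proof: on a dyadic block `D = C E` with a short factor `C` and a smooth factor `E`; the fourth
moment of `E` and the second moment of `E` twisted by `C^k` (dual formula for `E`, count of the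
coincidences of `h / j`), and the weighted inequality of the means.
-/

open Finset

namespace Pool.Agent.Results.MP_2a1f0e_nt.TypeISums

/-- **Main theorem.** -/
theorem result (k : ℕ) (hk : 1 ≤ k) (q ε : ℝ) (hq : 2 ≤ q) (hε : 0 < ε) : ∃ K : ℝ,
    ∀ (N T m L : ℕ) (f c g : ℕ → ℂ) (V : ℝ), 1 ≤ N → N ≤ T → 1 ≤ m → L ^ (k + 1) * m ≤ N →
    T ^ (k + 1) * m ^ (2 * k) ≤ N ^ (2 * k) → (∀ n, f (n + m) = f n) → (∀ n, ‖f n‖ ≤ 1) →
    (∀ l, ‖c l‖ ≤ 1) → (∀ n ∈ Icc N (2 * N), ‖g n‖ ≤ 1) →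
    ∑ n ∈ Ioc N (2 * N), ‖g n - g (n - 1)‖ ≤ V →
    ∑ t ∈ Icc 1 T, ‖∑ n ∈ Icc N (2 * N),
        g n * (∑ l ∈ (Icc 1 L).filter (fun l => l ∣ n), c l * f (n / l)) *
        Complex.exp (Complex.I * (t : ℂ) * ((Real.log (n : ℝ) : ℝ) : ℂ))‖ ^ q ≤
      K * (1 + V) ^ 4 * (N : ℝ) ^ ε * ((N : ℝ) ^ q + (N : ℝ) ^ (q / 2) * (T : ℝ)) := by
  obtain ⟨K, hK, h⟩ := KS6_54.ML.tyI_main k hk q ε hq hε
  refine ⟨K, ?_⟩
  intro N T m L f c g V hN hNT hm hL hT hf hf1 hc hg hV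
  have h1 := h N T m L hN hNT hT hm hL f hf hf1 c hc g hg
  simp_rw [← TH445.MQ.pw_exp]
  have e1 : ∀ t n : ℕ, g n * (∑ l ∈ (Icc 1 L).filter (fun l => l ∣ n), c l * f (n / l)) *
      W200.MR.pw (t : ℝ) n = KS6_54.ML.tyI L c f n * g n * W200.MR.pw (t : ℝ) n := by
    intro t n
    unfold KS6_54.ML.tyI
    ring
  simp_rw [e1]
  refine h1.trans ?_
  have h2 : KS6_54.ML.tv N g ≤ V := hV
  have h3 := KS6_54.ML.tv_nonneg N g
  have h4 : (1 + KS6_54.ML.tv N g) ^ 4 ≤ (1 + V) ^ 4 := pow_le_pow_left₀ (by linarith) (by linarith) 4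
  gcongr

end Pool.Agent.Results.MP_2a1f0e_nt.TypeISums
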